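import Pool.Agent.Y998.CN.Defs

set_option autoImplicit false

/-!
# Eigenfunctions of the interchange Hamiltonian of the complete graph (project CN of helper998)
-/

namespace Pool.Agent.Y375.CN.EN

open Finset Equiv Pool.Agent.Y998.CN

section

variable {V : Type} [Fintype V] [DecidableEq V] {q : ℕ}

/-- number of sites with colour `a` -/
def kap (c : V → Fin q) (a : Fin q) : ℕ := (univ.filter fun x => c x = a).card

theorem kap_swap (c : V → Fin q) (x y : V) : kap (c ∘ swap x y) = kap c := by
  funext a
  unfold kap
  refine Finset.card_nbij' (fun z => swap x y z) (fun z => swap x y z) ?_ ?_ ?_ ?_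
  · intro z hz
    simpa using hz
  · intro z hz
    simpa using hz
  · intro z _
    simp
  · intro z _
    simp

/-- twice the Hamiltonian -/
def Lf (f : (V → Fin q) → ℝ) (c : V → Fin q) : ℝ := ∑ x, ∑ y, (f c - f (c ∘ swap x y))

theorem ham_apply (f : (V → Fin q) → ℝ) (c : V → Fin q) :
    ∑ c', ham q (fun _ _ : V => (1 : ℝ)) c c' * f c' = Lf f c / 2 := by
  unfold ham Lf
  simp only [Finset.sum_mul, Finset.sum_div]
  rw [Finset.sum_comm]
  refine Finset.sum_congr rfl fun x _ => ?_
  rw [Finset.sum_comm]
  refine Finset.sum_congr rfl fun y _ => ?_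
  have h : ∀ c', (1 : ℝ) / 2 * ((if c' = c then 1 else 0) - (if c' = c ∘ swap x y then 1 else 0))
      * f c' = (if c' = c then f c' / 2 else 0) - (if c' = c ∘ swap x y then f c' / 2 else 0) := by
    intro c'
    split_ifs <;> ring
  simp only [h, Finset.sum_sub_distrib, Finset.sum_ite_eq', Finset.mem_univ, if_true]
  ring

/-- change one site of colour `o` to the colour `a` -/
def D (a o : Fin q) (f : (V → Fin q) → ℝ) (c : V → Fin q) : ℝ :=
  ∑ z, if c z = o then f (Function.update c z a) else 0

theorem D_swap (a o : Fin q) (f : (V → Fin q) → ℝ) (c : V → Fin q) (x y : V) :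
    D a o f (c ∘ swap x y) = D a o (fun c => f (c ∘ swap x y)) c := by
  unfold D
  rw [← Equiv.sum_comp (swap x y)
    (fun z => if c z = o then f (Function.update c z a ∘ swap x y) else 0)]
  refine Finset.sum_congr rfl fun z _ => ?_
  rw [Function.update_comp_equiv]
  simp

theorem Lf_D (a o : Fin q) (f : (V → Fin q) → ℝ) (c : V → Fin q) :
    Lf (D a o f) c = D a o (Lf f) c := by
  have h1 : ∀ x y : V, D a o f c - D a o f (c ∘ swap x y) =
      ∑ z, if c z = o then (f (Function.update c z a) -
        f (Function.update c z a ∘ swap x y)) else 0 := by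
    intro x y
    rw [D_swap]
    unfold D
    rw [← Finset.sum_sub_distrib]
    refine Finset.sum_congr rfl fun z _ => ?_
    split_ifs
    · rfl
    · simp
  unfold Lf
  simp only [h1]
  have h2 : ∀ x : V, (∑ y : V, ∑ z, if c z = o then (f (Function.update c z a) -
        f (Function.update c z a ∘ swap x y)) else 0) = ∑ z, if c z = o then
        ∑ y : V, (f (Function.update c z a) - f (Function.update c z a ∘ swap x y)) else 0 := by
    intro x
    rw [Finset.sum_comm]
    refine Finset.sum_congr rfl fun z _ => ?_
    split_ifs
    · rfl
    · simp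
  simp only [h2]
  rw [Finset.sum_comm]
  unfold D
  refine Finset.sum_congr rfl fun z _ => ?_
  split_ifs
  · rfl
  · simp

theorem D_smul (a o : Fin q) (f : (V → Fin q) → ℝ) (r : ℝ) (c : V → Fin q) :
    D a o (fun c => r * f c) c = r * D a o f c := by
  unfold D
  rw [Finset.mul_sum]
  refine Finset.sum_congr rfl fun z _ => ?_
  split_ifs
  · rfl
  · simp

theorem kap_update (c : V → Fin q) (y : V) {a o : Fin q} (hy : c y = o) (ha : a ≠ o) :
    kap c = Function.update (Function.update (kap (Function.update c y a)) a
      (kap (Function.update c y a) a - 1)) o (kap (Function.update c y a) o + 1) := by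
  have h1 : (univ.filter fun x => Function.update c y a x = a) =
      insert y (univ.filter fun x => c x = a) := by
    ext x
    simp only [mem_filter, mem_univ, true_and, mem_insert]
    by_cases hx : x = y
    · subst hx
      simp
    · simp [Function.update_of_ne hx, hx]
  have h2 : (univ.filter fun x => c x = o) =
      insert y (univ.filter fun x => Function.update c y a x = o) := by
    ext x
    simp only [mem_filter, mem_univ, true_and, mem_insert]
    by_cases hx : x = y
    · subst hx
      simp [hy]
    · simp [Function.update_of_ne hx, hx]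
  have h3 : ∀ b, b ≠ a → b ≠ o → (univ.filter fun x => c x = b) =
      (univ.filter fun x => Function.update c y a x = b) := by
    intro b hb hb'
    ext x
    simp only [mem_filter, mem_univ, true_and]
    by_cases hx : x = y
    · subst hx
      simp only [Function.update_self, hy]
      exact ⟨fun h => absurd h.symm hb', fun h => absurd h.symm hb⟩
    · simp [Function.update_of_ne hx]
  funext b
  by_cases hb' : b = o
  · subst hb'
    rw [Function.update_self]
    unfold kap
    rw [h2, Finset.card_insert_of_notMem]
    simp [ha]
  · rw [Function.update_of_ne hb']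
    by_cases hb : b = a
    · subst hb
      rw [Function.update_self]
      unfold kap
      rw [h1, Finset.card_insert_of_notMem]
      · simp
      · simp only [mem_filter, mem_univ, true_and, hy]
        exact fun h => ha h.symm
    · rw [Function.update_of_ne hb]
      unfold kap
      rw [h3 b hb hb']

/-- `c` has the colours prescribed by `ν` -/
def Ext (ν : V → Option (Fin q)) (c : V → Fin q) : Prop := ∀ x a, ν x = some a → c x = a

open Classical in
theorem D_pattern {a o : Fin q} (ha : a ≠ o) {f : (V → Fin q) → ℝ} {μ : Fin q → ℕ}
    (hf : ∀ c, f c ≠ 0 → kap c = μ) {ν : V → Option (Fin q)} (hν : ∀ x, ν x ≠ some o)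
    (h0 : ∑ c, (if Ext ν c then f c else 0) = 0) :
    ∑ c, (if Ext ν c then D a o f c else 0) = 0 := by
  have h1 : ∀ c, (if Ext ν c then D a o f c else 0) =
      ∑ y, if Ext ν c ∧ c y = o then f (Function.update c y a) else 0 := by
    intro c
    unfold D
    split_ifs with h
    · refine Finset.sum_congr rfl fun y _ => ?_
      simp [h]
    · symm
      refine Finset.sum_eq_zero fun y _ => ?_
      rw [if_neg]
      exact fun h' => h h'.1
  simp only [h1]
  rw [Finset.sum_comm]
  have h2 : ∀ y, ∑ c, (if Ext ν c ∧ c y = o then f (Function.update c y a) else 0) =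
      ∑ c, (if Ext ν c ∧ ν y = none ∧ c y = a then f c else 0) := by
    intro y
    by_cases hy : ν y = none
    · rw [← Finset.sum_filter, ← Finset.sum_filter]
      refine Finset.sum_nbij' (fun c => Function.update c y a) (fun c => Function.update c y o)
        ?_ ?_ ?_ ?_ ?_
      · intro c hc
        simp only [mem_filter, mem_univ, true_and] at hc ⊢
        refine ⟨?_, hy, by simp⟩
        intro x b hx
        have hxy : x ≠ y := by
          rintro rfl
          rw [hy] at hx
          exact absurd hx (by simp)
        rw [Function.update_of_ne hxy]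
        exact hc.1 x b hx
      · intro c hc
        simp only [mem_filter, mem_univ, true_and] at hc ⊢
        refine ⟨?_, by simp⟩
        intro x b hx
        have hxy : x ≠ y := by
          rintro rfl
          rw [hy] at hx
          exact absurd hx (by simp)
        rw [Function.update_of_ne hxy]
        exact hc.1 x b hx
      · intro c hc
        simp only [mem_filter, mem_univ, true_and] at hc
        simp only [Function.update_idem]
        rw [← hc.2, Function.update_eq_self]
      · intro c hc
        simp only [mem_filter, mem_univ, true_and] at hc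
        simp only [Function.update_idem]
        rw [← hc.2.2, Function.update_eq_self]
      · intro c _
        rfl
    · rw [Finset.sum_eq_zero, Finset.sum_eq_zero]
      · intro c _
        rw [if_neg]
        exact fun h => hy h.2.1
      · intro c _
        rw [if_neg]
        rintro ⟨h, h'⟩
        obtain ⟨b, hb⟩ := Option.ne_none_iff_exists'.1 hy
        have h3 := h y b hb
        rw [h'] at h3
        exact hν y (by rw [hb, h3])
  simp only [h2]
  rw [Finset.sum_comm]
  have h3 : ∀ c, ∑ y, (if Ext ν c ∧ ν y = none ∧ c y = a then f c else 0) =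
      ((μ a : ℝ) - (univ.filter fun y => ν y = some a).card) * (if Ext ν c then f c else 0) := by
    intro c
    by_cases hc : Ext ν c
    · by_cases hfc : f c = 0
      · simp [hfc]
      · rw [if_pos hc, ← Finset.sum_filter, Finset.sum_const, nsmul_eq_mul]
        congr 1
        rw [← hf c hfc]
        unfold kap
        have h4 : (univ.filter fun x => c x = a) = (univ.filter fun y => Ext ν c ∧ ν y = none ∧
            c y = a) ∪ (univ.filter fun y => ν y = some a) := by
          ext x
          simp only [mem_filter, mem_univ, true_and, mem_union]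
          constructor
          · intro hx
            rcases hν' : ν x with _ | b
            · exact Or.inl ⟨hc, rfl, hx⟩
            · right
              rw [← hx, hc x b hν']
          · rintro (h | h)
            · exact h.2.2
            · exact hc x a h
        have h5 : Disjoint (univ.filter fun y => Ext ν c ∧ ν y = none ∧
            c y = a) (univ.filter fun y => ν y = some a) := by
          rw [Finset.disjoint_left]
          intro x hx hx'
          simp only [mem_filter, mem_univ, true_and] at hx hx'
          rw [hx.2.1] at hx'
          exact absurd hx' (by simp)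
        rw [h4, Finset.card_union_of_disjoint h5]
        push_cast
        ring
    · rw [if_neg hc, mul_zero]
      refine Finset.sum_eq_zero fun y _ => ?_
      rw [if_neg]
      exact fun h => hc h.1
  simp only [h3]
  rw [← Finset.mul_sum, h0, mul_zero]

theorem card_ne (c : V → Fin q) (o : Fin q) :
    (univ.filter fun x => c x ≠ o).card + kap c o = Fintype.card V := by
  unfold kap
  rw [← Finset.card_univ, add_comm]
  exact Finset.card_filter_add_card_filter_not (s := univ) (fun x => c x = o)

theorem swap_upd (c : V → Fin q) {x y : V} (hxy : x ≠ y) {o : Fin q} (hy : c y = o) :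
    c ∘ swap x y = Function.update (Function.update c x o) y (c x) := by
  funext z
  by_cases h1 : z = y
  · subst h1
    simp
  · rw [Function.update_of_ne h1]
    by_cases h2 : z = x
    · subst h2
      simp [hy]
    · rw [Function.update_of_ne h2]
      simp [swap_apply_of_ne_of_ne h2 h1]

theorem mixed {o : Fin q} {f : (V → Fin q) → ℝ} (hD : ∀ a, a ≠ o → ∀ c, D a o f c = 0)
    (c : V → Fin q) {x : V} (hx : c x ≠ o) :
    ∑ y, (if c y = o then (f c - f (c ∘ swap x y)) else 0) = ((kap c o : ℝ) + 1) * f c := by
  have h1 := hD (c x) hx (Function.update c x o)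
  unfold D at h1
  have h2 : ∀ z, (if Function.update c x o z = o then
      f (Function.update (Function.update c x o) z (c x)) else 0) =
      (if z = x then f c else 0) + (if c z = o then f (c ∘ swap x z) else 0) := by
    intro z
    by_cases hz : z = x
    · subst hz
      simp [hx]
    · rw [Function.update_of_ne hz, if_neg hz, zero_add]
      split_ifs with h
      · rw [swap_upd c (fun h => hz h.symm) h]
      · rfl
  simp only [h2, Finset.sum_add_distrib, Finset.sum_ite_eq', Finset.mem_univ, if_true] at h1
  have h3 : ∀ y, (if c y = o then (f c - f (c ∘ swap x y)) else 0) =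
      (if c y = o then f c else 0) - (if c y = o then f (c ∘ swap x y) else 0) := by
    intro y
    split_ifs <;> simp
  simp only [h3, Finset.sum_sub_distrib]
  have h4 : ∑ y, (if c y = o then f c else 0) = (kap c o : ℝ) * f c := by
    rw [← Finset.sum_filter, Finset.sum_const, nsmul_eq_mul]
    rfl
  rw [h4]
  linarith

theorem energy {o : Fin q} {f : (V → Fin q) → ℝ} (hD : ∀ a, a ≠ o → ∀ c, D a o f c = 0)
    (c : V → Fin q) :
    Lf f c = 2 * (((univ.filter fun x => c x ≠ o).card : ℝ) * ((kap c o : ℝ) + 1) * f c) +
      ∑ x, ∑ y, (if c x ≠ o ∧ c y ≠ o then (f c - f (c ∘ swap x y)) else 0) := by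
  have h1 : ∀ x y, f c - f (c ∘ swap x y) =
      (if c x ≠ o then (if c y = o then (f c - f (c ∘ swap x y)) else 0) else 0) +
      (if c y ≠ o then (if c x = o then (f c - f (c ∘ swap y x)) else 0) else 0) +
      (if c x ≠ o ∧ c y ≠ o then (f c - f (c ∘ swap x y)) else 0) := by
    intro x y
    by_cases hx : c x = o
    · by_cases hy : c y = o
      · have : c ∘ swap x y = c := by
          funext z
          by_cases h1 : z = y
          · subst h1
            simp [hx, hy]
          · by_cases h2 : z = x
            · subst h2
              simp [hx, hy]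
            · simp [swap_apply_of_ne_of_ne h2 h1]
        simp [hx, hy, this]
      · simp [hx, hy, swap_comm]
    · by_cases hy : c y = o
      · simp [hx, hy]
      · simp [hx, hy]
  have h2 : ∀ x, (∑ y, (if c x ≠ o then (if c y = o then (f c - f (c ∘ swap x y)) else 0)
      else 0)) = if c x ≠ o then ((kap c o : ℝ) + 1) * f c else 0 := by
    intro x
    split_ifs with h
    · exact mixed hD c h
    · simp
  have h3 : ∑ x, ∑ y, (if c x ≠ o then (if c y = o then (f c - f (c ∘ swap x y)) else 0)
      else 0) = ((univ.filter fun x => c x ≠ o).card : ℝ) * ((kap c o : ℝ) + 1) * f c := by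
    simp only [h2]
    rw [← Finset.sum_filter, Finset.sum_const, nsmul_eq_mul]
    ring
  unfold Lf
  rw [Finset.sum_congr rfl fun x _ => Finset.sum_congr rfl fun y _ => h1 x y]
  simp only [Finset.sum_add_distrib]
  rw [h3]
  have h4 : ∑ x, ∑ y, (if c y ≠ o then (if c x = o then (f c - f (c ∘ swap y x)) else 0)
      else 0) = ((univ.filter fun x => c x ≠ o).card : ℝ) * ((kap c o : ℝ) + 1) * f c := by
    rw [Finset.sum_comm]
    exact h3
  rw [h4]
  ring

theorem pos_part (o : Fin q) (f : (V → Fin q) → ℝ) (x y : V) :
    0 ≤ ∑ c, f c * (if c x ≠ o ∧ c y ≠ o then (f c - f (c ∘ swap x y)) else 0) := by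
  have h1 : ∑ c, f c * (if c x ≠ o ∧ c y ≠ o then (f c - f (c ∘ swap x y)) else 0) =
      ∑ c : V → Fin q, f (c ∘ swap x y) *
        (if c x ≠ o ∧ c y ≠ o then (f (c ∘ swap x y) - f c) else 0) := by
    refine Finset.sum_nbij' (fun c => c ∘ swap x y) (fun c => c ∘ swap x y) (by simp) (by simp)
      ?_ ?_ ?_
    · intro c _
      funext z
      simp
    · intro c _
      funext z
      simp
    · intro c _
      have : (c ∘ swap x y) ∘ swap x y = c := by
        funext z
        simp
      simp only [this, Function.comp_apply, swap_apply_left, swap_apply_right]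
      by_cases h : c x ≠ o ∧ c y ≠ o
      · rw [if_pos h, if_pos ⟨h.2, h.1⟩]
      · rw [if_neg h, if_neg (fun h' => h ⟨h'.2, h'.1⟩)]
  have h2 : ∑ c, f c * (if c x ≠ o ∧ c y ≠ o then (f c - f (c ∘ swap x y)) else 0) =
      (∑ c : V → Fin q, (if c x ≠ o ∧ c y ≠ o then (f c - f (c ∘ swap x y)) ^ 2 else 0)) / 2 := by
    have h3 : ∑ c, f c * (if c x ≠ o ∧ c y ≠ o then (f c - f (c ∘ swap x y)) else 0) +
        ∑ c : V → Fin q, f (c ∘ swap x y) *
        (if c x ≠ o ∧ c y ≠ o then (f (c ∘ swap x y) - f c) else 0) =
        ∑ c : V → Fin q, (if c x ≠ o ∧ c y ≠ o then (f c - f (c ∘ swap x y)) ^ 2 else 0) := by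
      rw [← Finset.sum_add_distrib]
      refine Finset.sum_congr rfl fun c _ => ?_
      split_ifs <;> ring
    linarith
  rw [h2]
  refine div_nonneg (Finset.sum_nonneg fun c _ => ?_) (by norm_num)
  split_ifs
  · exact sq_nonneg _
  · exact le_rfl

open Classical in
theorem small (o : Fin q) (j m : ℕ) (hmj : m ≤ j) (μ : Fin q → ℕ) (f : (V → Fin q) → ℝ)
    (hm : μ o + m = Fintype.card V) (hf : f ≠ 0) (hs : ∀ c, f c ≠ 0 → kap c = μ)
    (hp : ∀ ν : V → Option (Fin q), (∀ x, ν x ≠ some o) →
      (univ.filter fun x => ν x ≠ none).card ≤ j → ∑ c, (if Ext ν c then f c else 0) = 0) :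
    False := by
  obtain ⟨c0, hc0⟩ : ∃ c, f c ≠ 0 := by
    by_contra h
    push Not at h
    exact hf (funext h)
  have h0 := hs c0 hc0
  have h1 := card_ne c0 o
  rw [h0] at h1
  have h2 := hp (fun x => if c0 x = o then none else some (c0 x)) (by
    intro x hx
    split_ifs at hx with h
    simp only [Option.some.injEq] at hx
    exact h hx) (by
    have : (univ.filter fun x => (if c0 x = o then none else some (c0 x)) ≠ none) =
        univ.filter fun x => c0 x ≠ o := by
      ext x
      by_cases h : c0 x = o <;> simp [h]
    rw [this]
    omega)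
  rw [Finset.sum_eq_single c0] at h2
  · rw [if_pos] at h2
    · exact hc0 h2
    · intro x a hx
      simp only at hx
      split_ifs at hx with h
      exact Option.some.inj hx
  · intro c _ hc
    by_cases he : Ext (fun x => if c0 x = o then none else some (c0 x)) c
    · rw [if_pos he]
      by_contra hfc
      have h3 := hs c hfc
      have h4 := card_ne c o
      rw [h3] at h4
      have hval : ∀ x, c0 x ≠ o → c x = c0 x := by
        intro x hx
        exact he x (c0 x) (by simp only; rw [if_neg hx])
      have h5 : (univ.filter fun x => c0 x ≠ o) = univ.filter fun x => c x ≠ o := by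
        refine Finset.eq_of_subset_of_card_le ?_ (by omega)
        intro x hx
        simp only [mem_filter, mem_univ, true_and] at hx ⊢
        rw [hval x hx]
        exact hx
      apply hc
      funext x
      by_cases hx : c0 x = o
      · have h6 : x ∉ (univ.filter fun x => c0 x ≠ o) := by simp [hx]
        rw [h5] at h6
        simp only [mem_filter, mem_univ, true_and, not_not] at h6
        rw [h6, hx]
      · exact hval x hx
    · rw [if_neg he]
  · intro h
    exact absurd (Finset.mem_univ _) h

open Classical in
theorem main (o : Fin q) (lam : ℝ) (j : ℕ) : ∀ (m : ℕ) (μ : Fin q → ℕ) (f : (V → Fin q) → ℝ),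
    μ o + m = Fintype.card V → (Fintype.card V : ℝ) / q ≤ μ o → f ≠ 0 →
    (∀ c, f c ≠ 0 → kap c = μ) →
    (∀ c, Lf f c = 2 * lam * f c) →
    (∀ ν : V → Option (Fin q), (∀ x, ν x ≠ some o) → (univ.filter fun x => ν x ≠ none).card ≤ j →
      ∑ c, (if Ext ν c then f c else 0) = 0) →
    ((j : ℝ) + 1) * Fintype.card V / q ≤ lam := by
  intro m
  induction m with
  | zero =>
    intro μ f hm hμ hf hs hL hp
    exact (small o j 0 (Nat.zero_le _) μ f hm hf hs hp).elim
  | succ m ih =>
    intro μ f hm hμ hf hs hL hp
    by_cases hmj : m + 1 ≤ j
    · exact (small o j (m + 1) hmj μ f hm hf hs hp).elim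
    · by_cases hD : ∃ a, a ≠ o ∧ D a o f ≠ 0
      · obtain ⟨a, ha, hDa⟩ := hD
        refine ih (Function.update (Function.update μ a (μ a - 1)) o (μ o + 1)) (D a o f)
          ?_ ?_ hDa ?_ ?_ ?_
        · rw [Function.update_self]
          omega
        · rw [Function.update_self]
          push_cast
          linarith
        · intro c hc
          unfold D at hc
          obtain ⟨y, _, hy⟩ := Finset.exists_ne_zero_of_sum_ne_zero hc
          have hyo : c y = o := by
            by_contra h
            exact hy (if_neg h)
          rw [if_pos hyo] at hy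
          rw [kap_update c y hyo ha, hs _ hy]
        · intro c
          rw [Lf_D]
          have : Lf f = fun c => 2 * lam * f c := by
            funext c
            exact hL c
          rw [this, D_smul]
        · intro ν hν hνj
          exact D_pattern ha hs hν (hp ν hν hνj)
      · push Not at hD
        have hD' : ∀ a, a ≠ o → ∀ c, D a o f c = 0 := fun a ha c => by rw [hD a ha]; rfl
        obtain ⟨c0, hc0⟩ : ∃ c, f c ≠ 0 := by
          by_contra h
          push Not at h
          exact hf (funext h)
        have hpos : 0 < ∑ c, f c ^ 2 := by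
          refine Finset.sum_pos' (fun c _ => sq_nonneg _) ⟨c0, Finset.mem_univ _, ?_⟩
          positivity
        have h1 : ∑ c, f c * Lf f c = 2 * lam * ∑ c, f c ^ 2 := by
          rw [Finset.mul_sum]
          refine Finset.sum_congr rfl fun c _ => ?_
          rw [hL c]
          ring
        have h2 : ∑ c, f c * Lf f c = 2 * (((m : ℝ) + 1) * ((μ o : ℝ) + 1)) * ∑ c, f c ^ 2 +
            ∑ x, ∑ y, ∑ c, f c * (if c x ≠ o ∧ c y ≠ o then (f c - f (c ∘ swap x y)) else 0) := by
          have h3 : ∀ c, f c * Lf f c = 2 * (((m : ℝ) + 1) * ((μ o : ℝ) + 1)) * f c ^ 2 +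
              ∑ x, ∑ y, f c * (if c x ≠ o ∧ c y ≠ o then (f c - f (c ∘ swap x y)) else 0) := by
            intro c
            by_cases hc : f c = 0
            · simp [hc]
            · rw [energy hD' c]
              have h4 := hs c hc
              have h5 := card_ne c o
              rw [h4] at h5
              have h6 : (univ.filter fun x => c x ≠ o).card = m + 1 := by omega
              rw [h6, h4]
              simp only [Finset.mul_sum, mul_add]
              push_cast
              ring
          simp only [h3, Finset.sum_add_distrib]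
          rw [← Finset.mul_sum]
          congr 1
          rw [Finset.sum_comm]
          refine Finset.sum_congr rfl fun x _ => ?_
          rw [Finset.sum_comm]
        have h3 : 0 ≤ ∑ x, ∑ y, ∑ c, f c *
            (if c x ≠ o ∧ c y ≠ o then (f c - f (c ∘ swap x y)) else 0) :=
          Finset.sum_nonneg fun x _ => Finset.sum_nonneg fun y _ => pos_part o f x y
        have h4 : (((m : ℝ) + 1) * ((μ o : ℝ) + 1)) * ∑ c, f c ^ 2 ≤ lam * ∑ c, f c ^ 2 := by
          linarith
        have h5 := le_of_mul_le_mul_right h4 hpos
        refine le_trans ?_ h5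
        have h6 : (j : ℝ) + 1 ≤ (m : ℝ) + 1 := by
          have : j < m + 1 := by omega
          have : j ≤ m := by omega
          have : (j : ℝ) ≤ m := by exact_mod_cast this
          linarith
        rw [mul_div_assoc]
        exact mul_le_mul h6 (by linarith) (by positivity) (by positivity)

end

theorem t_EN : S_EN := by
  classical
  intro V _ _ q j lam f hf hH hp
  obtain ⟨c0, hc0⟩ : ∃ c, f c ≠ 0 := by
    by_contra h
    push Not at h
    exact hf (funext h)
  have hL : ∀ c, Lf f c = 2 * lam * f c := by
    intro c
    have h1 := hH c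
    rw [ham_apply] at h1
    linarith
  rcases isEmpty_or_nonempty V with hV | ⟨⟨x0⟩⟩
  · have h1 := hL c0
    unfold Lf at h1
    simp only [Finset.univ_eq_empty, Finset.sum_empty] at h1
    have h2 : lam = 0 := by
      rcases mul_eq_zero.1 h1.symm with h | h
      · linarith
      · exact absurd h hc0
    rw [h2]
    simp
  have hq : 0 < q := lt_of_le_of_lt (Nat.zero_le _) (c0 x0).isLt
  have hsum : ∑ a, kap c0 a = Fintype.card V := by
    unfold kap
    rw [← Finset.card_univ]
    exact (Finset.card_eq_sum_card_fiberwise (f := c0) (s := univ) (t := univ)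
      (fun x _ => by simp)).symm
  have hq' : (0 : ℝ) < q := by exact_mod_cast hq
  obtain ⟨o, ho⟩ : ∃ o, (Fintype.card V : ℝ) / q ≤ kap c0 o := by
    by_contra h
    push Not at h
    have h1 : ∑ a, (kap c0 a : ℝ) < ∑ _a : Fin q, (Fintype.card V : ℝ) / q :=
      Finset.sum_lt_sum_of_nonempty ⟨c0 x0, Finset.mem_univ _⟩ fun a _ => h a
    rw [Finset.sum_const, Finset.card_univ, Fintype.card_fin, nsmul_eq_mul,
      mul_div_cancel₀ _ hq'.ne'] at h1
    have h2 : ((∑ a, kap c0 a : ℕ) : ℝ) = Fintype.card V := by exact_mod_cast hsum
    push_cast at h2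
    linarith
  have hcard := card_ne c0 o
  set g : (V → Fin q) → ℝ := fun c => if kap c = kap c0 then f c else 0 with hg
  refine main o lam j (univ.filter fun x => c0 x ≠ o).card (kap c0) g (by omega) ho ?_ ?_ ?_ ?_
  · intro h
    apply hc0
    have := congrFun h c0
    simpa [hg] using this
  · intro c hc
    by_contra h
    exact hc (by simp [hg, h])
  · intro c
    by_cases h : kap c = kap c0
    · have h1 : Lf g c = Lf f c := by
        unfold Lf
        refine Finset.sum_congr rfl fun x _ => Finset.sum_congr rfl fun y _ => ?_
        simp only [hg, kap_swap, h, if_true]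
      rw [h1, hL c]
      simp only [hg, h, if_true]
    · have h1 : Lf g c = 0 := by
        unfold Lf
        refine Finset.sum_eq_zero fun x _ => Finset.sum_eq_zero fun y _ => ?_
        simp only [hg, kap_swap, h, if_false]
        ring
      rw [h1]
      simp only [hg, h, if_false]
      ring
  · intro ν _ hνj
    have h1 := hp ν (kap c0) hνj
    refine Eq.trans ?_ h1
    refine Finset.sum_congr rfl fun c _ => ?_
    have h2 : (kap c = kap c0) ↔ (∀ a, (univ.filter fun x => c x = a).card = kap c0 a) := by
      constructor
      · intro h a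
        rw [← h]
        rfl
      · intro h
        funext a
        exact h a
    by_cases h3 : Ext ν c
    · by_cases h4 : kap c = kap c0
      · rw [if_pos h3, if_pos ⟨h3, h2.1 h4⟩]
        simp only [hg, h4, if_true]
      · rw [if_pos h3, if_neg (fun h => h4 (h2.2 h.2))]
        simp only [hg, h4, if_false]
    · rw [if_neg h3]
      symm
      split_ifs with h
      · exact absurd h.1 h3
      · rfl

end Pool.Agent.Y375.CN.EN
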